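import Mathlib
import Pool.Agent.Helper50.CombFinal

/-!
# Hypercyclic multiples of composition operators with an infinite backward orbit

We answer Q1 of the problem in the negative: there are a rooted tree `T`, a symbol `φ` with
`C_φ` bounded on the little Lipschitz space, such that `lam C_φ` is hypercyclic for every complex
number with `1 < |lam|`, and a vertex `v` with `N_v(φ)` infinite.
-/

namespace Pool.Agent.Results.MP_349e68_an.InfiniteBackwardOrbit

open scoped ENNReal NNReal Topology
open Filter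

/-- A rooted tree as in the problem: an infinite, locally finite tree with a distinguished root,
in which only the root may have degree one. -/
structure RootedTree (V : Type) where
  /-- the underlying graph -/
  graph : SimpleGraph V
  /-- it is connected and has no cycles -/
  isTree : graph.IsTree
  /-- every vertex has finitely many neighbours -/
  locallyFinite : ∀ v : V, (graph.neighborSet v).Finite
  /-- the root -/
  root : V
  /-- only the root may have degree one -/
  deg_ne_one : ∀ v : V, v ≠ root → (graph.neighborSet v).ncard ≠ 1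
  /-- there are infinitely many vertices -/
  infinite : Infinite V

variable {V : Type}

/-- `|v|`: the number of edges between the root and `v`. -/
noncomputable def RootedTree.level (T : RootedTree V) (v : V) : ℕ := T.graph.dist T.root v

/-- `u` is the parent `v⁻` of `v`: the neighbour of `v` which is one step closer to the root. -/
def RootedTree.IsParent (T : RootedTree V) (u v : V) : Prop :=
  T.graph.Adj u v ∧ T.level v = T.level u + 1

/-- Membership in the little Lipschitz space: `|f(v) - f(v⁻)| → 0` as `|v| → ∞`. -/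
def RootedTree.MemL0 (T : RootedTree V) (f : V → ℂ) : Prop :=
  ∀ ε : ℝ, 0 < ε → ∃ N : ℕ, ∀ u v : V, T.IsParent u v → N ≤ T.level v → ‖f v - f u‖ < ε

/-- The norm `max {|f(o)|, sup |f(v) - f(v⁻)|}`, with values in `[0, ∞]`
(it is finite on the little Lipschitz space). -/
noncomputable def RootedTree.norm0 (T : RootedTree V) (f : V → ℂ) : ℝ≥0∞ :=
  max ‖f T.root‖ₑ (⨆ u : V, ⨆ v : V, ⨆ _ : T.IsParent u v, ‖f v - f u‖ₑ)

/-- `C_φ` maps the little Lipschitz space into itself and is bounded. -/
def RootedTree.BoundedSymbol (T : RootedTree V) (φ : V → V) : Prop :=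
  (∀ f : V → ℂ, T.MemL0 f → T.MemL0 (f ∘ φ)) ∧
    ∃ C : ℝ≥0, ∀ f : V → ℂ, T.MemL0 f → T.norm0 (f ∘ φ) ≤ C * T.norm0 f

/-- `A` is hypercyclic on the little Lipschitz space: some `f` in the space has an orbit
`{A^n f : n ≥ 0}` which is dense in the space for the norm. -/
def RootedTree.Hypercyclic (T : RootedTree V) (A : (V → ℂ) → (V → ℂ)) : Prop :=
  ∃ f : V → ℂ, T.MemL0 f ∧ ∀ g : V → ℂ, T.MemL0 g → ∀ ε : ℝ≥0∞, 0 < ε →
    ∃ n : ℕ, T.norm0 (A^[n] f - g) < ε

/-! ### The comb tree -/

open Pool.Agent.Helper50.ParentTree Pool.Agent.Helper50.TreeSpace Pool.Agent.Helper50.Comb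

/-- the comb as a rooted tree -/
def combTree : RootedTree (ℤ × ℕ) where
  graph := pGraph rt par
  isTree := isTree isPar
  locallyFinite := fin_nbr
  root := rt
  deg_ne_one := fun v _ => deg_ne v
  infinite := inferInstance

lemma level_eq (v : ℤ × ℕ) : combTree.level v = rk v := dist_eq isPar v

lemma isParent_iff (u v : ℤ × ℕ) : combTree.IsParent u v ↔ v ≠ rt ∧ u = par v := by
  unfold RootedTree.IsParent
  rw [level_eq, level_eq]
  change (pGraph rt par).Adj u v ∧ _ ↔ _
  rw [pGraph_adj isPar]
  constructor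
  · rintro ⟨h1 | h1, h2⟩
    · have := isPar.r_par u h1.1
      rw [← h1.2] at this
      omega
    · exact h1
  · rintro ⟨h1, h2⟩
    refine ⟨Or.inr ⟨h1, h2⟩, ?_⟩
    have := isPar.r_par v h1
    rw [← h2] at this
    omega

lemma memL0_iff (f : ℤ × ℕ → ℂ) :
    combTree.MemL0 f ↔ Tendsto (D rt par f) cofinite (𝓝 0) := by
  constructor
  · intro h
    rw [Metric.tendsto_nhds]
    intro ε hε
    obtain ⟨N, hN⟩ := h ε hε
    rw [eventually_cofinite]
    refine ((fin_levels N).union (Set.finite_singleton rt)).subset ?_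
    intro v hv
    by_contra hcon
    simp only [Set.mem_union, Set.mem_setOf_eq, Set.mem_singleton_iff, not_or, not_le] at hcon
    apply hv
    rw [dist_zero_right, D_ne hcon.2]
    exact hN (par v) v ((isParent_iff _ _).mpr ⟨hcon.2, rfl⟩) (by rw [level_eq]; omega)
  · intro h ε hε
    rw [Metric.tendsto_nhds] at h
    have h1 := h ε hε
    rw [eventually_cofinite] at h1
    refine ⟨h1.toFinset.sup rk + 1, ?_⟩
    intro u v huv hv
    rw [isParent_iff] at huv
    obtain ⟨h2, rfl⟩ := huv
    by_contra hcon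
    have hmem : v ∈ h1.toFinset := by
      rw [Set.Finite.mem_toFinset, Set.mem_setOf_eq, dist_zero_right, D_ne h2]
      exact hcon
    have := Finset.le_sup (f := rk) hmem
    rw [level_eq] at hv
    omega

lemma norm0_le_iff (f : ℤ × ℕ → ℂ) (c : ℝ) :
    combTree.norm0 f ≤ ENNReal.ofReal c ↔ ∀ v, ‖D rt par f v‖ₑ ≤ ENNReal.ofReal c := by
  unfold RootedTree.norm0
  rw [max_le_iff]
  simp only [iSup_le_iff, isParent_iff]
  constructor
  · rintro ⟨h1, h2⟩ v
    by_cases hv : v = rt
    · rw [hv, D_root]; exact h1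
    · rw [D_ne hv]
      exact h2 (par v) v ⟨hv, rfl⟩
  · intro h
    constructor
    · have := h rt
      rwa [D_root] at this
    · rintro _ v ⟨hv, rfl⟩
      have := h v
      rwa [D_ne hv] at this

lemma enorm_le_ofReal (z : ℂ) {c : ℝ} (hc : 0 ≤ c) : ‖z‖ₑ ≤ ENNReal.ofReal c ↔ ‖z‖ ≤ c := by
  rw [← ofReal_norm_eq_enorm]
  exact ENNReal.ofReal_le_ofReal_iff hc

lemma bounded : combTree.BoundedSymbol phi := by
  refine ⟨?_, 4, ?_⟩
  · intro f hf
    rw [memL0_iff] at hf ⊢
    exact comp_mem isPar fin_levels isSymbol hf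
  · intro f _
    by_cases htop : combTree.norm0 f = ⊤
    · rw [htop, ENNReal.mul_top (by norm_num)]
      exact le_top
    · have h1 : combTree.norm0 f = ENNReal.ofReal (combTree.norm0 f).toReal :=
        (ENNReal.ofReal_toReal htop).symm
      set c := (combTree.norm0 f).toReal with hc
      have hc0 : 0 ≤ c := ENNReal.toReal_nonneg
      have h2 : ∀ v, ‖D rt par f v‖ ≤ c := by
        have := (norm0_le_iff f c).mp h1.le
        intro v
        exact (enorm_le_ofReal _ hc0).mp (this v)
      have h3 := D_comp_le isPar isSymbol hc0 h2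
      have h4 : combTree.norm0 (f ∘ phi) ≤ ENNReal.ofReal (4 * c) := by
        rw [norm0_le_iff]
        intro v
        rw [enorm_le_ofReal _ (by positivity)]
        exact_mod_cast h3 v
      rw [h1]
      refine h4.trans ?_
      rw [ENNReal.ofReal_mul (by norm_num)]
      apply le_of_eq
      congr 1
      simp

lemma iterate_eq (lam : ℂ) (φ : ℤ × ℕ → ℤ × ℕ) (n : ℕ) (f : ℤ × ℕ → ℂ) :
    (fun (f : ℤ × ℕ → ℂ) v => lam * f (φ v))^[n] f = fun w => lam ^ n * f (φ^[n] w) := by
  induction n with
  | zero => simp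
  | succ n ih =>
    rw [Function.iterate_succ_apply', ih]
    funext w
    simp only
    rw [Function.iterate_succ_apply]
    ring

lemma hypercyclic (lam : ℂ) (hlam : 1 < ‖lam‖) :
    combTree.Hypercyclic (fun f v => lam * f (phi v)) := by
  obtain ⟨f, hf, hden⟩ := comb_hyper lam hlam
  refine ⟨f, (memL0_iff f).mpr hf, ?_⟩
  intro g hg ε hε
  rw [memL0_iff] at hg
  obtain ⟨δ, hδ, hδε⟩ : ∃ δ : ℝ, 0 < δ ∧ ENNReal.ofReal δ < ε := by
    obtain ⟨q, hq1, hq2⟩ := ENNReal.lt_iff_exists_nnreal_btwn.mp hε
    refine ⟨q, by exact_mod_cast hq1, ?_⟩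
    rw [ENNReal.ofReal_coe_nnreal]
    exact hq2
  obtain ⟨n, hn⟩ := hden g hg δ hδ
  refine ⟨n, lt_of_le_of_lt ?_ hδε⟩
  rw [norm0_le_iff]
  intro v
  rw [enorm_le_ofReal _ hδ.le, iterate_eq]
  exact hn v

/-- **Negative answer to Q1.** There are a rooted tree `T` and a self-map `φ` of its vertex set
such that `C_φ` is bounded on the little Lipschitz space of `T`, the operator `lam C_φ` is
hypercyclic for every complex `lam` with `|lam| > 1`, and the set `N_v(φ)` of all `n ≥ 1` such that
`φ^{-n}({v})` is nonempty is infinite for some vertex `v`. -/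
theorem result : ∃ (V : Type) (T : RootedTree V) (φ : V → V),
    T.BoundedSymbol φ ∧
    (∀ lam : ℂ, 1 < ‖lam‖ → T.Hypercyclic (fun f v => lam * f (φ v))) ∧
    ∃ v : V, {n : ℕ | 1 ≤ n ∧ ∃ w : V, φ^[n] w = v}.Infinite := by
  refine ⟨ℤ × ℕ, combTree, phi, bounded, hypercyclic, ww 0, ?_⟩
  have h1 : {n : ℕ | 1 ≤ n ∧ ∃ w : ℤ × ℕ, phi^[n] w = ww 0} = Set.Ici 1 := by
    ext n
    simp only [Set.mem_setOf_eq, Set.mem_Ici, and_iff_left_iff_imp]
    intro _
    exact ⟨ww (0 + n), iter_ww n 0⟩
  rw [h1]
  exact Set.Ici_infinite 1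

end Pool.Agent.Results.MP_349e68_an.InfiniteBackwardOrbit
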